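import Mathlib
import Pool.Agent.Sep.Defs

/-!
Connected sets, tree-depth and the numbers `D` (MP_552896_co, graphs of bounded tree-depth).
-/

set_option autoImplicit false

namespace Pool.Agent.LPF

open Finset Classical Pool.Agent.Sep

universe u

variable {V : Type u}

/-- `X` is nonempty and connected in `G`. -/
def Conn (G : SimpleGraph V) (X : Finset V) : Prop :=
  X.Nonempty ∧ ∀ S ⊆ X, S.Nonempty → S ≠ X → ∃ x ∈ S, ∃ y ∈ X, y ∉ S ∧ G.Adj x y

/-- The subgraph of `G` induced by `X` has tree-depth at most `k`. -/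
def TD (G : SimpleGraph V) : ℕ → Finset V → Prop
  | 0, X => X = ∅
  | k + 1, X => ∀ C ⊆ X, Conn G C → ∃ u ∈ C, TD G k (C.erase u)

lemma TD.mono {G : SimpleGraph V} {k : ℕ} {X Y : Finset V} (h : TD G k Y) (hXY : X ⊆ Y) :
    TD G k X := by
  cases k with
  | zero =>
    have h' : Y = ∅ := h
    subst h'
    exact subset_empty.mp hXY
  | succ k => exact fun C hC hc => h C (hC.trans hXY) hc

/-- Two disjoint sets of large tree-depth in a connected set. -/
lemma not_TD_succ {G : SimpleGraph V} {k : ℕ} {Y X₁ X₂ : Finset V} (hY : Conn G Y)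
    (h₁ : X₁ ⊆ Y) (h₂ : X₂ ⊆ Y) (hd : Disjoint X₁ X₂) (n₁ : ¬ TD G k X₁) (n₂ : ¬ TD G k X₂) :
    ¬ TD G (k + 1) Y := by
  intro h
  obtain ⟨u, _, hu⟩ := h Y (Subset.refl _) hY
  by_cases hu1 : u ∈ X₁
  · refine n₂ (hu.mono fun x hx => mem_erase.mpr ⟨?_, h₂ hx⟩)
    rintro rfl
    exact (disjoint_left.mp hd) hu1 hx
  · refine n₁ (hu.mono fun x hx => mem_erase.mpr ⟨?_, h₁ hx⟩)
    rintro rfl
    exact hu1 hx

lemma not_TD_zero {G : SimpleGraph V} {X : Finset V} : ¬ TD G 0 X ↔ X.Nonempty := by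
  show ¬ (X = ∅) ↔ _
  rw [nonempty_iff_ne_empty]

/-! ### Components -/

section comps

variable [Fintype V]

lemma comp_subset (K : SimpleGraph V) (Y : Finset V) (v : V) : comp K Y v ⊆ Y := filter_subset _ _

lemma mem_comp {K : SimpleGraph V} {Y : Finset V} {v u : V} :
    u ∈ comp K Y v ↔ u ∈ Y ∧ (res K Y).Reachable v u := mem_filter

lemma mem_comp_self {K : SimpleGraph V} {Y : Finset V} {v : V} (hv : v ∈ Y) : v ∈ comp K Y v :=
  mem_comp.mpr ⟨hv, SimpleGraph.Reachable.refl _⟩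

lemma comp_closed {K : SimpleGraph V} {Y : Finset V} {v x y : V} (hx : x ∈ comp K Y v)
    (hy : y ∈ Y) (h : K.Adj x y) : y ∈ comp K Y v := by
  rw [mem_comp] at hx ⊢
  refine ⟨hy, hx.2.trans (SimpleGraph.Adj.reachable ?_)⟩
  exact ⟨h, hx.1, hy⟩

lemma comp_eq {K : SimpleGraph V} {Y : Finset V} {v x : V} (hx : x ∈ comp K Y v) :
    comp K Y x = comp K Y v := by
  rw [mem_comp] at hx
  ext y
  rw [mem_comp, mem_comp]
  exact ⟨fun h => ⟨h.1, hx.2.trans h.2⟩, fun h => ⟨h.1, hx.2.symm.trans h.2⟩⟩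

lemma conn_comp {K : SimpleGraph V} {Y : Finset V} {v : V} (hv : v ∈ Y) :
    Conn K (comp K Y v) := by
  refine ⟨⟨v, mem_comp_self hv⟩, ?_⟩
  rintro S hS ⟨s, hs⟩ hne
  obtain ⟨y, hy, hyS⟩ : ∃ y ∈ comp K Y v, y ∉ S := by
    by_contra hcon
    push Not at hcon
    exact hne (Subset.antisymm hS hcon)
  have h1 : (res K Y).Reachable s y := ((mem_comp.mp (hS hs)).2.symm).trans (mem_comp.mp hy).2
  obtain ⟨p⟩ := h1
  obtain ⟨d, hd, hd1, hd2⟩ := p.exists_boundary_dart (S : Set V) (by exact_mod_cast hs)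
    (by exact_mod_cast hyS)
  have hadj := d.adj
  refine ⟨d.fst, by exact_mod_cast hd1, d.snd, ?_, by exact_mod_cast hd2, hadj.1⟩
  exact comp_closed (hS (by exact_mod_cast hd1)) hadj.2.2 hadj.1

lemma conn_subset_comp {K : SimpleGraph V} {X Y : Finset V} {x : V} (hX : Conn K X)
    (hXY : X ⊆ Y) (hx : x ∈ X) : X ⊆ comp K Y x := by
  by_contra hcon
  obtain ⟨a, ha, b, hb, hab, hadj⟩ := hX.2 (X ∩ comp K Y x) inter_subset_left
    ⟨x, mem_inter.mpr ⟨hx, mem_comp_self (hXY hx)⟩⟩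
    (fun h => hcon (by rw [← h]; exact inter_subset_right))
  exact hab (mem_inter.mpr ⟨hb, comp_closed (mem_inter.mp ha).2 (hXY hb) hadj⟩)

lemma exists_adj_comp {K : SimpleGraph V} {Y : Finset V} (hY : Conn K Y) {u v : V} (hu : u ∈ Y)
    (hv : v ∈ Y.erase u) : ∃ x ∈ comp K (Y.erase u) v, K.Adj u x := by
  have hsub : comp K (Y.erase u) v ⊆ Y := (comp_subset _ _ _).trans (erase_subset _ _)
  obtain ⟨a, ha, b, hb, hab, hadj⟩ := hY.2 _ hsub ⟨v, mem_comp_self hv⟩ (by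
    intro h
    rw [← h] at hu
    exact (notMem_erase u Y) (comp_subset _ _ _ hu))
  refine ⟨a, ha, ?_⟩
  by_cases hbu : b = u
  · subst hbu; exact hadj.symm
  · exact absurd (comp_closed ha (mem_erase.mpr ⟨hbu, hb⟩) hadj) hab

lemma mem_comps {K : SimpleGraph V} {Y C : Finset V} : C ∈ comps K Y ↔ ∃ v ∈ Y, comp K Y v = C :=
  mem_image

lemma comps_disjoint {K : SimpleGraph V} {Y C D : Finset V} (hC : C ∈ comps K Y)
    (hD : D ∈ comps K Y) (hne : C ≠ D) : Disjoint C D := by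
  obtain ⟨v, _, rfl⟩ := mem_comps.mp hC
  obtain ⟨w, _, rfl⟩ := mem_comps.mp hD
  rw [disjoint_left]
  intro x hx hx'
  exact hne ((comp_eq hx).symm.trans (comp_eq hx'))

end comps

/-! ### The numbers `D` -/

/-- `F` is a family of pairwise disjoint connected subsets of `Y \ {v}`, each of tree-depth more
than `k` and containing a neighbour of `v`. -/
def Fam (G : SimpleGraph V) (k : ℕ) (Y : Finset V) (v : V) (F : Finset (Finset V)) : Prop :=
  (∀ X ∈ F, X ⊆ Y ∧ v ∉ X ∧ Conn G X ∧ ¬ TD G k X ∧ ∃ x ∈ X, G.Adj v x) ∧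
    ∀ X ∈ F, ∀ X' ∈ F, X ≠ X' → Disjoint X X'

/-- The largest size of such a family. -/
noncomputable def D [Fintype V] (G : SimpleGraph V) (k : ℕ) (Y : Finset V) (v : V) : ℕ :=
  ((univ : Finset (Finset (Finset V))).filter (fun F => Fam G k Y v F)).sup Finset.card

variable [Fintype V]

lemma card_le_D {G : SimpleGraph V} {k : ℕ} {Y : Finset V} {v : V} {F : Finset (Finset V)}
    (h : Fam G k Y v F) : F.card ≤ D G k Y v :=
  Finset.le_sup (f := Finset.card) (mem_filter.mpr ⟨mem_univ _, h⟩)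

lemma exists_fam (G : SimpleGraph V) (k : ℕ) (Y : Finset V) (v : V) :
    ∃ F, Fam G k Y v F ∧ F.card = D G k Y v := by
  have hne : ((univ : Finset (Finset (Finset V))).filter (fun F => Fam G k Y v F)).Nonempty := by
    refine ⟨∅, mem_filter.mpr ⟨mem_univ _, ?_, ?_⟩⟩ <;> simp
  obtain ⟨F, hF, h⟩ := Finset.exists_mem_eq_sup _ hne Finset.card
  exact ⟨F, (mem_filter.mp hF).2, h.symm⟩

lemma D_mono {G : SimpleGraph V} {k : ℕ} {Y Z : Finset V} {v : V} (h : Y ⊆ Z) :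
    D G k Y v ≤ D G k Z v := by
  obtain ⟨F, hF, hc⟩ := exists_fam G k Y v
  rw [← hc]
  exact card_le_D ⟨fun X hX => ⟨(hF.1 X hX).1.trans h, (hF.1 X hX).2⟩, hF.2⟩

lemma D_erase {G : SimpleGraph V} {k : ℕ} {Y : Finset V} {v w : V} :
    D G k Y v ≤ D G k (Y.erase w) v + 1 := by
  obtain ⟨F, hF, hc⟩ := exists_fam G k Y v
  rw [← hc]
  have h1 : (F.filter (fun X => w ∈ X)).card ≤ 1 := by
    rw [card_le_one]
    intro X hX X' hX'
    by_contra hne
    exact (disjoint_left.mp (hF.2 X (mem_filter.mp hX).1 X' (mem_filter.mp hX').1 hne))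
      (mem_filter.mp hX).2 (mem_filter.mp hX').2
  have h2 : (F.filter (fun X => ¬ w ∈ X)).card ≤ D G k (Y.erase w) v := by
    apply card_le_D
    refine ⟨fun X hX => ?_, fun X hX X' hX' => hF.2 X (mem_filter.mp hX).1 X' (mem_filter.mp hX').1⟩
    obtain ⟨hXF, hwX⟩ := mem_filter.mp hX
    obtain ⟨a, b⟩ := hF.1 X hXF
    refine ⟨fun x hx => mem_erase.mpr ⟨?_, a hx⟩, b⟩
    rintro rfl
    exact hwX hx
  have h3 := card_filter_add_card_filter_not (s := F) (fun X => w ∈ X)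
  omega

end Pool.Agent.LPF
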