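import Mathlib
import Pool.Agent.LPF.Basic

/-!
Two counting lemmas on connected sets of bounded tree-depth (MP_552896_co).
-/

set_option autoImplicit false

namespace Pool.Agent.LPF

open Finset Classical Pool.Agent.Sep

universe u

variable {V : Type u} [Fintype V]

/-- The bound of the counting lemmas. -/
def bd (m : ℕ) : ℕ → ℕ
  | 0 => 0
  | s + 1 => 1 + m * bd m s

/-- A family of pairwise disjoint sets has at most `P.card` members which meet `P`. -/
lemma card_meet {F : Finset (Finset V)} (hF : ∀ X ∈ F, ∀ X' ∈ F, X ≠ X' → Disjoint X X')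
    (P : Finset V) : (F.filter (fun X => ¬ Disjoint X P)).card ≤ P.card := by
  have h : ∀ X ∈ F.filter (fun X => ¬ Disjoint X P), ∃ x, x ∈ X ∧ x ∈ P := by
    intro X hX
    obtain ⟨x, hx, hx'⟩ := not_disjoint_iff.mp (mem_filter.mp hX).2
    exact ⟨x, hx, hx'⟩
  rcases isEmpty_or_nonempty V with he | he
  · have h0 : (F.filter (fun X => ¬ Disjoint X P)) = ∅ := by
      apply eq_empty_of_forall_notMem
      intro X hX
      exact he.false (h X hX).choose
    rw [h0]; simp
  choose! f hf using h
  refine card_le_card_of_injOn f (fun X hX => (hf X (by exact_mod_cast hX)).2) ?_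
  intro X hX X' hX' heq
  by_contra hne
  have hX1 : X ∈ F.filter (fun X => ¬ Disjoint X P) := by exact_mod_cast hX
  have hX2 : X' ∈ F.filter (fun X => ¬ Disjoint X P) := by exact_mod_cast hX'
  have h1 := (hf X hX1).1
  have h2 := (hf X' hX2).1
  rw [← heq] at h2
  exact (disjoint_left.mp (hF X (mem_filter.mp hX1).1 X' (mem_filter.mp hX2).1 hne)) h1 h2

/-- Components of `Y \ {u}` which are connected sets of tree-depth more than `k` are counted by
`D`. -/
lemma card_comps_le_D {G : SimpleGraph V} {k : ℕ} {Y : Finset V} (hY : Conn G Y) {u : V}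
    (hu : u ∈ Y) (I : Finset (Finset V)) (hI : I ⊆ comps G (Y.erase u))
    (hk : ∀ C ∈ I, ¬ TD G k C) : I.card ≤ D G k univ u := by
  apply card_le_D
  refine ⟨fun C hC => ?_, fun C hC C' hC' => comps_disjoint (hI hC) (hI hC')⟩
  obtain ⟨v, hv, rfl⟩ := mem_comps.mp (hI hC)
  exact ⟨subset_univ _, fun h => notMem_erase u Y (comp_subset _ _ _ h), conn_comp hv, hk _ hC,
    exists_adj_comp hY hu hv⟩

/-- Lemma C. -/
lemma lemmaC {G : SimpleGraph V} {k m : ℕ} (s : ℕ) : ∀ (Y : Finset V), Conn G Y → TD G s Y →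
    (∀ z ∈ Y, D G k univ z < m) → ∀ F : Finset (Finset V),
    (∀ X ∈ F, X ⊆ Y ∧ Conn G X ∧ ¬ TD G k X) →
    (∀ X ∈ F, ∀ X' ∈ F, X ≠ X' → Disjoint X X') → F.card ≤ bd m s := by
  induction s with
  | zero =>
    intro Y hY h0
    have h0' : Y = ∅ := h0
    exact absurd h0' (nonempty_iff_ne_empty.mp hY.1)
  | succ s ih =>
    intro Y hY hTD hD F hF hdis
    obtain ⟨u, hu, hTu⟩ := hTD Y (Subset.refl _) hY
    have h1 : (F.filter (fun X => u ∈ X)).card ≤ 1 := by
      rw [card_le_one]
      intro X hX X' hX'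
      by_contra hne
      exact (disjoint_left.mp (hdis X (mem_filter.mp hX).1 X' (mem_filter.mp hX').1 hne))
        (mem_filter.mp hX).2 (mem_filter.mp hX').2
    have h3 := card_filter_add_card_filter_not (s := F) (fun X => u ∈ X)
    set F' := F.filter (fun X => ¬ u ∈ X) with hF'
    have hsub : ∀ X ∈ F', X ⊆ Y.erase u := by
      intro X hX x hx
      refine mem_erase.mpr ⟨?_, (hF X (mem_filter.mp hX).1).1 hx⟩
      rintro rfl
      exact (mem_filter.mp hX).2 hx
    have hc : ∀ X ∈ F', ∃ C ∈ comps G (Y.erase u), X ⊆ C := by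
      intro X hX
      obtain ⟨x, hx⟩ := (hF X (mem_filter.mp hX).1).2.1.1
      exact ⟨comp G (Y.erase u) x, mem_comps.mpr ⟨x, hsub X hX hx, rfl⟩,
        conn_subset_comp (hF X (mem_filter.mp hX).1).2.1 (hsub X hX) hx⟩
    choose! f hf1 hf2 using hc
    have hI : (F'.image f).card ≤ m := by
      refine (card_comps_le_D (k := k) hY hu _ ?_ ?_).trans (hD u hu).le
      · intro C hC
        obtain ⟨X, hX, rfl⟩ := mem_image.mp hC
        exact hf1 X hX
      · intro C hC
        obtain ⟨X, hX, rfl⟩ := mem_image.mp hC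
        exact fun h => (hF X (mem_filter.mp hX).1).2.2 (h.mono (hf2 X hX))
    have h2 : F'.card ≤ bd m s * (F'.image f).card := by
      apply card_le_mul_card_image
      intro C hC
      obtain ⟨X, hX, rfl⟩ := mem_image.mp hC
      obtain ⟨v, hv, hvC⟩ := mem_comps.mp (hf1 X hX)
      have hCY : f X ⊆ Y.erase u := by rw [← hvC]; exact comp_subset _ _ _
      refine ih (f X) (by rw [← hvC]; exact conn_comp hv) (hTu.mono hCY)
        (fun z hz => hD z (mem_of_mem_erase (hCY hz))) _ ?_ ?_
      · intro X' hX'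
        obtain ⟨hX'1, hX'2⟩ := mem_filter.mp hX'
        exact ⟨by rw [← hX'2]; exact hf2 X' hX'1, (hF X' (mem_filter.mp hX'1).1).2⟩
      · intro X' hX' X'' hX''
        exact hdis X' (mem_filter.mp (mem_filter.mp hX').1).1 X''
          (mem_filter.mp (mem_filter.mp hX'').1).1
    have h4 : bd m s * (F'.image f).card ≤ m * bd m s := by
      rw [mul_comm]; exact Nat.mul_le_mul_right _ hI
    show F.card ≤ 1 + m * bd m s
    omega

/-- Lemma N. -/
lemma lemmaN {G : SimpleGraph V} {k M t : ℕ} (s : ℕ) : ∀ (Y P : Finset V), Conn G Y → TD G s Y →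
    (∀ x ∈ Y, ∀ y, y ∉ Y → G.Adj x y → y ∈ P) → P.card + s ≤ t →
    (∀ z ∈ Y, D G (k + 1) univ z < M) →
    (Y.filter (fun v => t + 2 ≤ D G k univ v)).card ≤ bd M s := by
  induction s with
  | zero =>
    intro Y P hY h0
    have h0' : Y = ∅ := h0
    exact absurd h0' (nonempty_iff_ne_empty.mp hY.1)
  | succ s ih =>
    intro Y P hY hTD hP hPt hD
    obtain ⟨u, hu, hTu⟩ := hTD Y (Subset.refl _) hY
    set S := Y.filter (fun v => t + 2 ≤ D G k univ v) with hS
    have h1 : S.card ≤ (S.erase u).card + 1 := by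
      have := Finset.pred_card_le_card_erase (s := S) (a := u)
      omega
    set S' := S.erase u with hS'
    have hSY : ∀ v ∈ S', v ∈ Y.erase u := by
      intro v hv
      obtain ⟨a, b⟩ := mem_erase.mp hv
      exact mem_erase.mpr ⟨a, (mem_filter.mp b).1⟩
    -- the boundary of a component
    have hbd : ∀ v ∈ Y.erase u, ∀ x ∈ comp G (Y.erase u) v, ∀ y, y ∉ comp G (Y.erase u) v →
        G.Adj x y → y ∈ insert u P := by
      intro v hv x hx y hy hxy
      by_cases hyu : y = u
      · exact hyu ▸ mem_insert_self _ _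
      · by_cases hyY : y ∈ Y
        · exact absurd (comp_closed hx (mem_erase.mpr ⟨hyu, hyY⟩) hxy) hy
        · exact mem_insert_of_mem (hP x (mem_of_mem_erase (comp_subset _ _ _ hx)) y hyY hxy)
    have hcardP : (insert u P).card + s ≤ t := by
      have := card_insert_le u P
      omega
    have hbig : ∀ v ∈ S', ¬ TD G (k + 1) (comp G (Y.erase u) v) := by
      intro v hv
      have hvY := hSY v hv
      have hvD : t + 2 ≤ D G k univ v := (mem_filter.mp (mem_of_mem_erase hv)).2
      obtain ⟨F, hF, hFc⟩ := exists_fam G k univ v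
      have hm := card_meet hF.2 (insert u P)
      have h3 := card_filter_add_card_filter_not (s := F) (fun X => Disjoint X (insert u P))
      have h2 : 1 < (F.filter (fun X => Disjoint X (insert u P))).card := by omega
      obtain ⟨X, hX, X', hX', hne⟩ := one_lt_card.mp h2
      have hin : ∀ Z ∈ F.filter (fun X => Disjoint X (insert u P)),
          Z ⊆ comp G (Y.erase u) v := by
        intro Z hZ
        obtain ⟨hZF, hZd⟩ := mem_filter.mp hZ
        obtain ⟨_, hvZ, hZc, _, x, hxZ, hvx⟩ := hF.1 Z hZF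
        have hx : x ∈ comp G (Y.erase u) v := by
          by_contra hcon
          exact (disjoint_left.mp hZd) hxZ (hbd v hvY v (mem_comp_self hvY) x hcon hvx)
        by_contra hcon
        obtain ⟨a, ha, b, hb, hab, hadj⟩ := hZc.2 (Z ∩ comp G (Y.erase u) v) inter_subset_left
          ⟨x, mem_inter.mpr ⟨hxZ, hx⟩⟩ (fun h => hcon (by rw [← h]; exact inter_subset_right))
        refine (disjoint_left.mp hZd) hb (hbd v hvY a (mem_inter.mp ha).2 b ?_ hadj)
        intro hbc
        exact hab (mem_inter.mpr ⟨hb, hbc⟩)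
      exact not_TD_succ (conn_comp hvY) (hin X hX) (hin X' hX')
        (hF.2 X (mem_filter.mp hX).1 X' (mem_filter.mp hX').1 hne)
        (hF.1 X (mem_filter.mp hX).1).2.2.2.1 (hF.1 X' (mem_filter.mp hX').1).2.2.2.1
    have hI : (S'.image (comp G (Y.erase u))).card ≤ M := by
      refine (card_comps_le_D (k := k + 1) hY hu _ ?_ ?_).trans (hD u hu).le
      · intro C hC
        obtain ⟨v, hv, rfl⟩ := mem_image.mp hC
        exact mem_comps.mpr ⟨v, hSY v hv, rfl⟩
      · intro C hC
        obtain ⟨v, hv, rfl⟩ := mem_image.mp hC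
        exact hbig v hv
    have h2 : S'.card ≤ bd M s * (S'.image (comp G (Y.erase u))).card := by
      apply card_le_mul_card_image
      intro C hC
      obtain ⟨v, hv, rfl⟩ := mem_image.mp hC
      have hvY := hSY v hv
      refine le_trans (card_le_card ?_) (ih (comp G (Y.erase u) v) (insert u P) (conn_comp hvY)
        (hTu.mono (comp_subset _ _ _)) (hbd v hvY) hcardP
        (fun z hz => hD z (mem_of_mem_erase (comp_subset _ _ _ hz))))
      intro w hw
      obtain ⟨hwS, hw2⟩ := mem_filter.mp hw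
      refine mem_filter.mpr ⟨?_, (mem_filter.mp (mem_of_mem_erase hwS)).2⟩
      rw [← hw2]
      exact mem_comp_self (hSY w hwS)
    have h4 : bd M s * (S'.image (comp G (Y.erase u))).card ≤ M * bd M s := by
      rw [mul_comm]; exact Nat.mul_le_mul_right _ hI
    show S.card ≤ 1 + M * bd M s
    omega

end Pool.Agent.LPF
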