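import Mathlib
import Pool.Agent.LPF.Basic

/-!
The numbers `D` are almost recognisable from the deck (MP_552896_co).
-/

set_option autoImplicit false
set_option linter.unusedSectionVars false

namespace Pool.Agent.LPF

open Finset Classical Pool.Agent.Sep

universe u

variable {V : Type u} [Fintype V]

lemma conn_im {σ : Equiv.Perm V} {G H : SimpleGraph V} {X : Finset V} (h : Agree σ G H X)
    (hX : Conn G X) : Conn H (im σ X) := by
  obtain ⟨⟨x₀, hx₀⟩, hX⟩ := hX
  refine ⟨⟨σ x₀, apply_mem_im.mpr hx₀⟩, ?_⟩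
  intro S hS hSn hne
  have h1 : im σ⁻¹ S ⊆ X := by
    intro y hy
    obtain ⟨z, hz, rfl⟩ := mem_im.mp hy
    have := mem_im_iff_inv.mp (hS hz)
    exact this
  obtain ⟨z, hz⟩ := hSn
  obtain ⟨x, hx, y, hy, hyS, hadj⟩ := hX (im σ⁻¹ S) h1 ⟨σ⁻¹ z, apply_mem_im.mpr hz⟩ (by
    intro hcon
    apply hne
    rw [← hcon, im_im_inv])
  have hx' : σ x ∈ S := by
    obtain ⟨z, hz, rfl⟩ := mem_im.mp hx
    simpa using hz
  refine ⟨σ x, hx', σ y, apply_mem_im.mpr hy, ?_, (h x (h1 hx) y hy).mp hadj⟩
  intro hcon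
  apply hyS
  refine mem_im.mpr ⟨σ y, hcon, by simp⟩

lemma TD_im {G H : SimpleGraph V} {σ : Equiv.Perm V} (k : ℕ) : ∀ {X : Finset V},
    Agree σ G H X → TD G k X → TD H k (im σ X) := by
  induction k with
  | zero =>
    intro X _ hX
    have hX' : X = ∅ := hX
    subst hX'
    show im σ ∅ = ∅
    simp [im]
  | succ k ih =>
    intro X h hX C hC hCc
    have hCX : im σ⁻¹ C ⊆ X := by
      intro y hy
      obtain ⟨z, hz, rfl⟩ := mem_im.mp hy
      have := mem_im_iff_inv.mp (hC hz)
      exact this
    have hCc' : Conn G (im σ⁻¹ C) := by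
      refine conn_im (σ := σ⁻¹) (G := H) (H := G) ?_ hCc
      exact (h.inv).mono hC
    obtain ⟨u, hu, hTu⟩ := hX _ hCX hCc'
    refine ⟨σ u, by obtain ⟨z, hz, rfl⟩ := mem_im.mp hu; simpa using hz, ?_⟩
    have h2 := ih (h.mono ((erase_subset _ _).trans hCX)) hTu
    have h3 : im σ ((im σ⁻¹ C).erase u) = C.erase (σ u) := by
      ext y
      rw [mem_im_iff_inv, mem_erase, mem_erase, apply_mem_im]
      refine and_congr_left fun _ => not_congr ?_
      rw [Equiv.Perm.inv_eq_iff_eq, eq_comm, eq_comm (b := y)]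
    rwa [h3] at h2

lemma not_TD_im {G H : SimpleGraph V} {σ : Equiv.Perm V} {k : ℕ} {X : Finset V}
    (h : Agree σ G H X) (hX : ¬ TD G k X) : ¬ TD H k (im σ X) := by
  intro hcon
  apply hX
  have := TD_im k h.inv hcon
  rwa [im_inv_im] at this

lemma D_le_im {G H : SimpleGraph V} {σ : Equiv.Perm V} {k : ℕ} {Y : Finset V} {v : V}
    (h : Agree σ G H Y) (hv : v ∈ Y) : D G k Y v ≤ D H k (im σ Y) (σ v) := by
  obtain ⟨F, hF, hc⟩ := exists_fam G k Y v
  rw [← hc, ← card_image_of_injective F (im_injective σ)]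
  apply card_le_D
  refine ⟨?_, ?_⟩
  · intro Z hZ
    obtain ⟨X, hX, rfl⟩ := mem_image.mp hZ
    obtain ⟨a, b, c, d, x, hx, hvx⟩ := hF.1 X hX
    refine ⟨?_, fun hcon => b (apply_mem_im.mp hcon), conn_im (h.mono a) c,
      not_TD_im (h.mono a) d, σ x, apply_mem_im.mpr hx, (h v hv x (a hx)).mp hvx⟩
    intro y hy
    obtain ⟨z, hz, rfl⟩ := mem_im.mp hy
    exact apply_mem_im.mpr (a hz)
  · intro Z hZ Z' hZ' hne
    obtain ⟨X, hX, rfl⟩ := mem_image.mp hZ
    obtain ⟨X', hX', rfl⟩ := mem_image.mp hZ'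
    have hne' : X ≠ X' := fun h => hne (by rw [h])
    have := hF.2 X hX X' hX' hne'
    rw [disjoint_left] at this ⊢
    intro y hy hy'
    obtain ⟨z, hz, rfl⟩ := mem_im.mp hy
    exact this hz (apply_mem_im.mp hy')

lemma D_im {G H : SimpleGraph V} {σ : Equiv.Perm V} {k : ℕ} {Y : Finset V} {v : V}
    (h : Agree σ G H Y) (hv : v ∈ Y) : D H k (im σ Y) (σ v) = D G k Y v := by
  refine le_antisymm ?_ (D_le_im h hv)
  have := D_le_im (k := k) (v := σ v) h.inv (apply_mem_im.mpr hv)
  rw [im_inv_im] at this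
  simpa using this

/-- If the numbers `D` have a gap then the set of vertices above the gap is recognisable. -/
lemma recog {G H : SimpleGraph V}
    (hdeck : ∀ w, ∃ σ : Equiv.Perm V, σ w = w ∧ Agree σ G H (univ.erase w))
    (hn : 2 ≤ Fintype.card V) (k L R : ℕ) (hLR : L + 2 ≤ R)
    (hgap : ∀ v, D G k univ v < L ∨ R ≤ D G k univ v) :
    Hypo (univ.filter (fun v => R ≤ D G k univ v)) G H := by
  set A := univ.filter (fun v => R ≤ D G k univ v) with hA
  set A' := univ.filter (fun v => R - 1 ≤ D H k univ v) with hA'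
  -- the values in the two graphs
  have hval : ∀ (w : V) (σ : Equiv.Perm V), σ w = w → Agree σ G H (univ.erase w) →
      ∀ v, v ≠ w → (v ∈ A ↔ σ v ∈ A') := by
    intro w σ hσw hag v hvw
    have hσv : σ v ≠ w := fun h => hvw (σ.injective (h.trans hσw.symm))
    have h0 : im σ (univ.erase w) = univ.erase w := by
      ext y
      rw [mem_im_iff_inv]
      simp only [mem_erase, mem_univ, and_true]
      refine not_congr ?_
      rw [Equiv.Perm.inv_eq_iff_eq, hσw]
    have h1 := D_im (k := k) hag (mem_erase.mpr ⟨hvw, mem_univ v⟩)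
    rw [h0] at h1
    have h2 := D_erase (G := G) (k := k) (Y := univ) (v := v) (w := w)
    have h3 := D_mono (G := G) (k := k) (v := v) (erase_subset w univ)
    have h4 := D_erase (G := H) (k := k) (Y := univ) (v := σ v) (w := w)
    have h5 := D_mono (G := H) (k := k) (v := σ v) (erase_subset w univ)
    rw [hA, hA', mem_filter, mem_filter]
    simp only [mem_univ, true_and]
    rcases hgap v with hg | hg
    · constructor
      · intro h; omega
      · intro h; omega
    · constructor
      · intro h; omega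
      · intro h; exact hg
  have himg : ∀ (w : V) (σ : Equiv.Perm V), σ w = w → Agree σ G H (univ.erase w) →
      im σ (A.erase w) = A'.erase w := by
    intro w σ hσw hag
    ext y
    rw [mem_im_iff_inv, mem_erase, mem_erase]
    have e : σ⁻¹ y = w ↔ y = w := by
      rw [Equiv.Perm.inv_eq_iff_eq, hσw]
    by_cases hy : y = w
    · constructor
      · intro h; exact absurd (e.mpr hy) h.1
      · intro h; exact absurd hy h.1
    · have h6 := hval w σ hσw hag (σ⁻¹ y) (fun h => hy (e.mp h))
      have h7 : σ (σ⁻¹ y) = y := by simp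
      rw [h7] at h6
      constructor
      · intro h; exact ⟨hy, h6.mp h.2⟩
      · intro h; exact ⟨fun h' => hy (e.mp h'), h6.mpr h.2⟩
  have hcardw : ∀ w, (A.erase w).card = (A'.erase w).card := by
    intro w
    obtain ⟨σ, hσw, hag⟩ := hdeck w
    rw [← himg w σ hσw hag, card_im]
  -- summation over all `w`
  have hsum : ∀ B : Finset V, ∑ w, (B.erase w).card = (Fintype.card V - 1) * B.card := by
    intro B
    have h1 : ∀ w, (B.erase w).card + (if w ∈ B then 1 else 0) = B.card := by
      intro w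
      split_ifs with hw
      · exact card_erase_add_one hw
      · rw [erase_eq_of_notMem hw]; rfl
    have h2 : ∑ w, ((B.erase w).card + (if w ∈ B then 1 else 0)) = Fintype.card V * B.card := by
      rw [sum_congr rfl (fun w _ => h1 w)]
      simp
    rw [sum_add_distrib] at h2
    have h3 : ∑ w, (if w ∈ B then 1 else 0) = B.card := by simp
    rw [h3] at h2
    have h4 : (Fintype.card V - 1) * B.card + B.card = Fintype.card V * B.card := by
      obtain ⟨m, hm⟩ : ∃ m, Fintype.card V = m + 1 := ⟨Fintype.card V - 1, by omega⟩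
      rw [hm]
      simp only [Nat.add_sub_cancel]
      ring
    omega
  have hAA : A.card = A'.card := by
    have h1 := hsum A
    have h2 := hsum A'
    rw [sum_congr rfl (fun w _ => hcardw w), h2] at h1
    exact (Nat.eq_of_mul_eq_mul_left (by omega) h1).symm
  have hmem : ∀ w, w ∈ A ↔ w ∈ A' := by
    intro w
    have h1 := hcardw w
    constructor
    · intro hw
      by_contra hcon
      rw [erase_eq_of_notMem hcon] at h1
      have := card_erase_add_one hw
      omega
    · intro hw
      by_contra hcon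
      rw [erase_eq_of_notMem hcon] at h1
      have := card_erase_add_one hw
      omega
  have hAeq : A = A' := by ext w; exact hmem w
  intro w hw
  obtain ⟨σ, hσw, hag⟩ := hdeck w
  refine ⟨σ, hσw, ?_, hag⟩
  have h1 := himg w σ hσw hag
  rw [erase_eq_of_notMem hw, ← hAeq, erase_eq_of_notMem hw] at h1
  exact h1

end Pool.Agent.LPF
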