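import Mathlib
import Pool.Agent.LPF.Count
import Pool.Agent.LPF.Recog

/-!
Choice of the recognisable separator in graphs of bounded tree-depth (MP_552896_co).
-/

set_option autoImplicit false
set_option linter.unusedSectionVars false

namespace Pool.Agent.LPF

open Finset Classical Pool.Agent.Sep

universe u

/-- The core theorem (proved in `Pool.Agent.Sep`). -/
def Core : Prop := ∀ (V : Type u) [Fintype V] (A : Finset V) (G H : SimpleGraph V),
  Hypo A G H → 3 ≤ (Aᶜ : Finset V).card → ∀ q : ℕ, 2 ≤ (comps G Aᶜ).card →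
  q * (q - 1) < 2 * (comps G Aᶜ).card → 2 * (II A G G).card * 2 ^ q < 3 ^ q →
  ∃ g : Equiv.Perm V, ∀ x y, G.Adj x y ↔ H.Adj (g x) (g y)

/-- The number of isomorphisms of `G[A]` is at most `|A|!`. -/
def CardII : Prop := ∀ (V : Type u) [Fintype V] (A : Finset V) (G : SimpleGraph V),
  (II A G G).card ≤ A.card.factorial

/-- Every vertex-deleted subgraph of `G` is isomorphic to that of `H` for the same vertex. -/
def Deck {V : Type u} [Fintype V] (G H : SimpleGraph V) : Prop :=
  ∀ w, ∃ σ : Equiv.Perm V, σ w = w ∧ Agree σ G H (univ.erase w)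

lemma exists_q (Q : ℕ) : ∃ q : ℕ, 2 * Q * 2 ^ q < 3 ^ q := by
  obtain ⟨q, hq⟩ := pow_unbounded_of_one_lt (2 * Q : ℝ) (by norm_num : (1:ℝ) < 3 / 2)
  refine ⟨q, ?_⟩
  rw [div_pow, lt_div_iff₀ (by positivity)] at hq
  exact_mod_cast hq

/-- Pigeonhole: a value-free interval. -/
lemma exists_gap {V : Type u} [Fintype V] (f : V → ℕ) (a : ℕ → ℕ) (ha : ∀ i, a i ≤ a (i + 1))
    (Q : ℕ) (hQ : (univ.filter (fun v => a 0 ≤ f v)).card ≤ Q) :
    ∃ i ≤ Q, ∀ v, f v < a i ∨ a (i + 1) ≤ f v := by
  by_contra hcon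
  push Not at hcon
  have hmono : Monotone a := monotone_nat_of_le_succ ha
  have h : ∀ i ∈ range (Q + 1), ∃ v, a i ≤ f v ∧ f v < a (i + 1) := by
    intro i hi
    exact hcon i (by simpa [Nat.lt_succ_iff] using hi)
  obtain ⟨v0, _⟩ := h 0 (by simp)
  have : Nonempty V := ⟨v0⟩
  choose! g hg1 hg2 using h
  have hinj : Set.InjOn g (range (Q + 1) : Finset ℕ) := by
    intro i hi j hj hij
    have hi' : i ∈ range (Q + 1) := by exact_mod_cast hi
    have hj' : j ∈ range (Q + 1) := by exact_mod_cast hj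
    by_contra hne
    rcases Nat.lt_or_gt_of_ne hne with hlt | hlt
    · have h1 := hg2 i hi'
      have h2 := hg1 j hj'
      rw [hij] at h1
      have h3 : a (i + 1) ≤ a j := hmono hlt
      omega
    · have h1 := hg2 j hj'
      have h2 := hg1 i hi'
      rw [← hij] at h1
      have h3 : a (j + 1) ≤ a i := hmono hlt
      omega
  have hcard := card_le_card_of_injOn (s := range (Q + 1))
    (t := univ.filter (fun v => a 0 ≤ f v)) g (by
      intro i hi
      have hi' : i ∈ range (Q + 1) := by exact_mod_cast hi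
      refine mem_coe.mpr (mem_filter.mpr ⟨mem_univ _, ?_⟩)
      exact (hmono (Nat.zero_le i)).trans (hg1 i hi')) hinj
  rw [card_range] at hcard
  omega

/-- The recursion step of the choice. -/
def stp (Q c t m : ℕ) : ℕ := m + 2 + Q + bd m t * c

/-- The sequence of thresholds. -/
def thr (Q c t : ℕ) : ℕ → ℕ
  | 0 => t + 2
  | i + 1 => stp Q c t (thr Q c t i)

lemma claim (hcore : Core.{u}) (hII : CardII.{u}) (t : ℕ) : ∀ i k : ℕ, k + i = t →
    ∃ N : ℕ, ∀ (V : Type u) [Fintype V] (G H : SimpleGraph V), Conn G univ → TD G t univ →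
      Deck G H → 2 ≤ Fintype.card V → (∃ v, N ≤ D G k univ v) →
      ∃ g : Equiv.Perm V, ∀ x y, G.Adj x y ↔ H.Adj (g x) (g y) := by
  intro i
  induction i with
  | zero =>
    intro k hk
    refine ⟨1, ?_⟩
    intro V _ G H hc hTD hdeck hn ⟨v, hv⟩
    exfalso
    obtain ⟨F, hF, hFc⟩ := exists_fam G k univ v
    obtain ⟨X, hX⟩ := card_pos.mp (by omega : 0 < F.card)
    have hkt : k = t := by omega
    subst hkt
    exact (hF.1 X hX).2.2.2.1 (hTD.mono (subset_univ _))
  | succ i ih =>
    intro k hk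
    obtain ⟨N', hN'⟩ := ih (k + 1) (by omega)
    set Q := bd N' t with hQ
    obtain ⟨q, hq⟩ := exists_q Q.factorial
    set c := q * q + 3 with hc
    refine ⟨thr Q c t (Q + 1), ?_⟩
    intro V _ G H hconn hTD hdeck hn ⟨v₀, hv₀⟩
    by_cases hz : ∃ z, N' ≤ D G (k + 1) univ z
    · exact hN' V G H hconn hTD hdeck hn hz
    push Not at hz
    have hstep : ∀ i, thr Q c t i + 2 + Q + bd (thr Q c t i) t * c = thr Q c t (i + 1) :=
      fun i => rfl
    have hle : ∀ i, thr Q c t i ≤ thr Q c t (i + 1) := by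
      intro i
      have := hstep i
      omega
    have hmono : Monotone (thr Q c t) := monotone_nat_of_le_succ hle
    have hcount : (univ.filter (fun v => thr Q c t 0 ≤ D G k univ v)).card ≤ Q :=
      lemmaN (k := k) (M := N') (t := t) t univ ∅ hconn hTD
        (fun x _ y hy => absurd (mem_univ y) hy) (by simp) (fun z _ => hz z)
    obtain ⟨i, hi, hgap⟩ := exists_gap (fun v => D G k univ v) (thr Q c t) hle Q hcount
    have hLR : thr Q c t i + 2 ≤ thr Q c t (i + 1) := by
      have := hstep i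
      omega
    have hhyp := recog hdeck hn k (thr Q c t i) (thr Q c t (i + 1)) hLR hgap
    set A := univ.filter (fun v => thr Q c t (i + 1) ≤ D G k univ v) with hA
    have hAQ : A.card ≤ Q := by
      refine le_trans (card_le_card ?_) hcount
      intro v hv
      exact mem_filter.mpr ⟨mem_univ _, (hmono (Nat.zero_le (i + 1))).trans (mem_filter.mp hv).2⟩
    have hv₀' : thr Q c t (i + 1) ≤ D G k univ v₀ := (hmono (by omega)).trans hv₀
    -- the sets at `v₀` which avoid `A`
    obtain ⟨F, hF, hFc⟩ := exists_fam G k univ v₀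
    have hmeet := card_meet hF.2 A
    have hsplit := card_filter_add_card_filter_not (s := F) (fun X => Disjoint X A)
    set F' := F.filter (fun X => Disjoint X A) with hF'
    have hF'card : bd (thr Q c t i) t * c + 2 ≤ F'.card := by
      have := hstep i
      omega
    have hsub : ∀ X ∈ F', X ⊆ Aᶜ := by
      intro X hX x hx
      rw [mem_compl]
      exact (disjoint_left.mp (mem_filter.mp hX).2) hx
    have hcc : ∀ X ∈ F', ∃ C ∈ comps G Aᶜ, X ⊆ C := by
      intro X hX
      obtain ⟨x, hx⟩ := (hF.1 X (mem_filter.mp hX).1).2.2.1.1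
      exact ⟨comp G Aᶜ x, mem_comps.mpr ⟨x, hsub X hX hx, rfl⟩,
        conn_subset_comp (hF.1 X (mem_filter.mp hX).1).2.2.1 (hsub X hX) hx⟩
    choose! f hf1 hf2 using hcc
    have hcard : F'.card ≤ bd (thr Q c t i) t * (F'.image f).card := by
      apply card_le_mul_card_image
      intro C hC
      obtain ⟨X, hX, rfl⟩ := mem_image.mp hC
      obtain ⟨v, hv, hvC⟩ := mem_comps.mp (hf1 X hX)
      have hCA : f X ⊆ Aᶜ := by rw [← hvC]; exact comp_subset _ _ _
      refine lemmaC (k := k) (m := thr Q c t i) t (f X) (by rw [← hvC]; exact conn_comp hv)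
        (hTD.mono (subset_univ _)) ?_ _ ?_ ?_
      · intro z hz'
        rcases hgap z with h | h
        · exact h
        · exact absurd (mem_filter.mpr ⟨mem_univ z, h⟩) (mem_compl.mp (hCA hz'))
      · intro X' hX'
        obtain ⟨hX'1, hX'2⟩ := mem_filter.mp hX'
        have h1 := hF.1 X' (mem_filter.mp hX'1).1
        exact ⟨by rw [← hX'2]; exact hf2 X' hX'1, h1.2.2.1, h1.2.2.2.1⟩
      · intro X' hX' X'' hX''
        exact hF.2 X' (mem_filter.mp (mem_filter.mp hX').1).1 X''
          (mem_filter.mp (mem_filter.mp hX'').1).1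
    have hcard2 : (F'.image f).card ≤ (comps G Aᶜ).card := by
      apply card_le_card
      intro C hC
      obtain ⟨X, hX, rfl⟩ := mem_image.mp hC
      exact hf1 X hX
    have hcomps : c ≤ (comps G Aᶜ).card := by
      by_contra hcon
      push Not at hcon
      have h1 : bd (thr Q c t i) t * (F'.image f).card ≤ bd (thr Q c t i) t * c :=
        Nat.mul_le_mul_left _ (by omega)
      omega
    have hAc : (comps G Aᶜ).card ≤ (Aᶜ : Finset V).card := card_image_le
    refine hcore V A G H hhyp (by omega) q (by omega) ?_ ?_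
    · have h1 : q * (q - 1) ≤ q * q := Nat.mul_le_mul_left _ (Nat.sub_le _ _)
      omega
    · have h1 : (II A G G).card ≤ Q.factorial := (hII V A G).trans (Nat.factorial_le hAQ)
      refine lt_of_le_of_lt ?_ hq
      exact Nat.mul_le_mul_right _ (Nat.mul_le_mul_left _ h1)

/-- Large connected graphs of bounded tree-depth. -/
lemma connected_case (hcore : Core.{u}) (hII : CardII.{u}) (t : ℕ) :
    ∃ N : ℕ, ∀ (V : Type u) [Fintype V] (G H : SimpleGraph V), Conn G univ → TD G t univ →
      Deck G H → N ≤ Fintype.card V →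
      ∃ g : Equiv.Perm V, ∀ x y, G.Adj x y ↔ H.Adj (g x) (g y) := by
  obtain ⟨N, hN⟩ := claim hcore hII t t 0 (by simp)
  refine ⟨bd N t + 2, ?_⟩
  intro V _ G H hconn hTD hdeck hn
  refine hN V G H hconn hTD hdeck (by omega) ?_
  by_contra hcon
  push Not at hcon
  have h1 := lemmaC (k := 0) (m := N) t univ hconn hTD (fun z _ => hcon z)
    (univ.image (fun v : V => ({v} : Finset V))) (by
      intro X hX
      obtain ⟨v, _, rfl⟩ := mem_image.mp hX
      refine ⟨subset_univ _, ⟨singleton_nonempty v, ?_⟩, not_TD_zero.mpr (singleton_nonempty v)⟩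
      intro S hS hSn hne
      exfalso
      rcases subset_singleton_iff.mp hS with h | h
      · rw [h] at hSn; exact absurd hSn (by simp)
      · exact hne h) (by
      intro X hX X' hX' hne
      obtain ⟨v, _, rfl⟩ := mem_image.mp hX
      obtain ⟨v', _, rfl⟩ := mem_image.mp hX'
      rw [disjoint_singleton]
      exact fun h => hne (by rw [h]))
  rw [card_image_of_injective _ singleton_injective, card_univ] at h1
  omega

/-- Disconnected graphs. -/
lemma disconnected_case (hcore : Core.{u}) (hII : CardII.{u}) (V : Type u) [Fintype V]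
    (G H : SimpleGraph V) (hG : ¬ Conn G univ) (hdeck : Deck G H) (hn : 3 ≤ Fintype.card V) :
    ∃ g : Equiv.Perm V, ∀ x y, G.Adj x y ↔ H.Adj (g x) (g y) := by
  have hhyp : Hypo (∅ : Finset V) G H := by
    intro w _
    obtain ⟨σ, h1, h2⟩ := hdeck w
    exact ⟨σ, h1, by simp [im], h2⟩
  have hcard : 2 ≤ (comps G ((∅ : Finset V)ᶜ)).card := by
    rw [compl_empty]
    obtain ⟨v⟩ : Nonempty V := Fintype.card_pos_iff.mp (by omega)
    have h1 : ∃ x, x ∉ comp G univ v := by
      by_contra hcon
      push Not at hcon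
      have h2 : comp G univ v = univ := eq_univ_of_forall hcon
      exact hG (h2 ▸ conn_comp (mem_univ v))
    obtain ⟨x, hx⟩ := h1
    have h2 : comp G univ v ≠ comp G univ x := fun h => hx (h ▸ mem_comp_self (mem_univ x))
    exact one_lt_card.mpr ⟨comp G univ v, mem_comps.mpr ⟨v, mem_univ v, rfl⟩, comp G univ x,
      mem_comps.mpr ⟨x, mem_univ x, rfl⟩, h2⟩
  refine hcore V ∅ G H hhyp (by rw [compl_empty, card_univ]; exact hn) 2 hcard (by omega) ?_
  have h1 := hII V ∅ G
  simp at h1
  have h2 : 2 * (II ∅ G G).card * 2 ^ 2 ≤ 2 * 1 * 2 ^ 2 :=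
    Nat.mul_le_mul_right _ (Nat.mul_le_mul_left _ h1)
  omega

/-- Large graphs of bounded tree-depth. -/
lemma td_case (hcore : Core.{u}) (hII : CardII.{u}) (t : ℕ) :
    ∃ N : ℕ, ∀ (V : Type u) [Fintype V] (G H : SimpleGraph V), TD G t univ →
      Deck G H → N ≤ Fintype.card V →
      ∃ g : Equiv.Perm V, ∀ x y, G.Adj x y ↔ H.Adj (g x) (g y) := by
  obtain ⟨N, hN⟩ := connected_case hcore hII t
  refine ⟨N + 3, ?_⟩
  intro V _ G H hTD hdeck hn
  by_cases hG : Conn G univ
  · exact hN V G H hG hTD hdeck (by omega)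
  · exact disconnected_case hcore hII V G H hG hdeck (by omega)

end Pool.Agent.LPF
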