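import Mathlib
import Pool.Agent.LPF.Basic

/-!
Graphs without long paths have bounded tree-depth (MP_552896_co).
-/

set_option autoImplicit false
set_option linter.unusedSectionVars false

namespace Pool.Agent.LPF

open Finset Classical Pool.Agent.Sep

universe u

variable {V : Type u} [Fintype V]

/-- A list which is a path in `G` is the support of a walk. -/
lemma exists_walk (G : SimpleGraph V) (l : List V) : ∀ (r : V), (r :: l).IsChain G.Adj →
    ∃ (v : V) (p : G.Walk r v), p.support = r :: l := by
  induction l with
  | nil => exact fun r _ => ⟨r, SimpleGraph.Walk.nil, rfl⟩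
  | cons a l ih =>
    intro r h
    rw [List.isChain_cons_cons] at h
    obtain ⟨v, p, hp⟩ := ih a h.2
    exact ⟨v, SimpleGraph.Walk.cons h.1 p, by rw [SimpleGraph.Walk.support_cons, hp]⟩

lemma TD_of_connected_subsets {G : SimpleGraph V} {s : ℕ} {X : Finset V}
    (h : ∀ D ⊆ X, Conn G D → TD G s D) : TD G s X := by
  cases s with
  | zero =>
    show X = ∅
    rw [← not_nonempty_iff_eq_empty]
    rintro ⟨x, hx⟩
    have h1 : ({x} : Finset V) = ∅ := h {x} (singleton_subset_iff.mpr hx) ⟨singleton_nonempty x, by
      intro S hS hSn hne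
      exfalso
      rcases subset_singleton_iff.mp hS with h | h
      · rw [h] at hSn; exact absurd hSn (by simp)
      · exact hne h⟩
    exact absurd h1 (by simp)
  | succ s => exact fun C hC hCc => h C hC hCc C (Subset.refl _) hCc

/-- If all paths from `r` in the connected set `C` have at most `s` vertices then `C` has
tree-depth at most `s`. -/
lemma TD_of_paths {G : SimpleGraph V} (s : ℕ) : ∀ (C : Finset V) (r : V), Conn G C → r ∈ C →
    (∀ l : List V, (r :: l).IsChain G.Adj → (r :: l).Nodup → (∀ x ∈ r :: l, x ∈ C) →
      (r :: l).length ≤ s) → TD G s C := by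
  induction s with
  | zero =>
    intro C r _ hr h
    exfalso
    have := h [] (by simp) (by simp) (by simpa using hr)
    simp at this
  | succ s ih =>
    intro C r hC hr h
    -- the set `C \ {r}`
    have key : TD G s (C.erase r) := by
      apply TD_of_connected_subsets
      intro D hD hDc
      obtain ⟨d, hd⟩ := hDc.1
      have hd' : d ∈ C.erase r := hD hd
      obtain ⟨x, hx, hrx⟩ := exists_adj_comp hC hr hd'
      refine TD.mono ?_ (conn_subset_comp hDc hD hd)
      refine ih (comp G (C.erase r) d) x (conn_comp hd') hx ?_
      intro l hl1 hl2 hl3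
      have hrl : r ∉ x :: l := fun hmem => notMem_erase r C (comp_subset _ _ _ (hl3 r hmem))
      have := h (x :: l) (List.isChain_cons_cons.mpr ⟨hrx, hl1⟩)
        (List.nodup_cons.mpr ⟨hrl, hl2⟩) (by
          intro y hy
          rcases List.mem_cons.mp hy with rfl | hy
          · exact hr
          · exact mem_of_mem_erase (comp_subset _ _ _ (hl3 y hy)))
      simpa using this
    intro C' hC' hC'c
    by_cases hr' : r ∈ C'
    · exact ⟨r, hr', key.mono (erase_subset_erase r hC')⟩
    · obtain ⟨u, hu⟩ := hC'c.1
      refine ⟨u, hu, key.mono ?_⟩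
      intro x hx
      refine mem_erase.mpr ⟨?_, hC' (mem_of_mem_erase hx)⟩
      rintro rfl
      exact hr' (mem_of_mem_erase hx)

/-- A graph in which all paths have length less than `t` has tree-depth at most `t`. -/
lemma TD_of_walks {G : SimpleGraph V} {t : ℕ}
    (h : ∀ (u v : V) (p : G.Walk u v), p.IsPath → p.length < t) : TD G t univ := by
  apply TD_of_connected_subsets
  intro D _ hD
  obtain ⟨d, hd⟩ := hD.1
  refine TD_of_paths t D d hD hd ?_
  intro l hl1 hl2 _
  obtain ⟨v, p, hp⟩ := exists_walk G l d hl1
  have h1 := h d v p (by rw [SimpleGraph.Walk.isPath_def, hp]; exact hl2)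
  have h2 := p.length_support
  rw [hp] at h2
  omega

end Pool.Agent.LPF
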