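import Mathlib
import Pool.Agent.LPF.Choice
import Pool.Agent.LPF.Path
import Pool.Agent.Lib.Recon.CliquePoset

/-!
Reconstruction of the truncated clique lattices of large graphs without long paths
(MP_552896_co), given the core theorem.
-/

set_option autoImplicit false
set_option linter.unusedSectionVars false

namespace Pool.Agent.LPF

open Finset Classical Pool.Agent.Sep Pool.Agent.Lib.Recon

lemma Deck.compl {V : Type*} [Fintype V] {G H : SimpleGraph V} (h : Deck G H) : Deck Gᶜ Hᶜ := by
  intro w
  obtain ⟨σ, h1, h2⟩ := h w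
  refine ⟨σ, h1, ?_⟩
  intro x hx y hy
  rw [SimpleGraph.compl_adj, SimpleGraph.compl_adj, h2 x hx y hy]
  refine and_congr_left fun _ => not_congr ?_
  exact (σ.injective.eq_iff).symm

lemma main (hcore : Core.{0}) (hII : CardII.{0}) (t : ℕ) :
    ∃ N : ℕ, ∀ (V : Type) [Fintype V] (G : SimpleGraph V), N ≤ Fintype.card V →
      ((∀ (u v : V) (p : G.Walk u v), p.IsPath → p.length < t) ∨
        (∀ (u v : V) (p : Gᶜ.Walk u v), p.IsPath → p.length < t)) →
      ∀ (W : Type) [Fintype W] (H : SimpleGraph W) (f : V ≃ W),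
        (∀ v : V,
          Nonempty ({s : Finset V // s.Nonempty ∧ G.IsClique (s : Set V) ∧ v ∉ s} ≃o
            {t : Finset W // t.Nonempty ∧ H.IsClique (t : Set W) ∧ f v ∉ t})) →
        Nonempty ({s : Finset V // s.Nonempty ∧ G.IsClique (s : Set V)} ≃o
          {t : Finset W // t.Nonempty ∧ H.IsClique (t : Set W)}) := by
  obtain ⟨N, hN⟩ := td_case hcore hII t
  refine ⟨N, ?_⟩
  intro V _ G hcard hpath W _ H f hdeck
  apply orderIso_of_iso
  have hyp : ∀ v, CardIso G H v (f v) := fun v => (hdeck v).elim (cardIso_of_orderIso G H f v)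
  -- transfer `H` to the vertex set `V`
  have hD : Deck G (H.comap f) := by
    intro w
    obtain ⟨σ, h1, h2⟩ := hyp w
    refine ⟨σ.trans f.symm, by simp [h1], ?_⟩
    intro x hx y hy
    rw [SimpleGraph.comap_adj]
    simp only [Equiv.trans_apply, Equiv.apply_symm_apply]
    exact h2 x y (ne_of_mem_erase hx) (ne_of_mem_erase hy)
  have hiso : ∃ g : Equiv.Perm V, ∀ x y, G.Adj x y ↔ (H.comap f).Adj (g x) (g y) := by
    rcases hpath with hp | hp
    · exact hN V G (H.comap f) (TD_of_walks hp) hD hcard
    · obtain ⟨g, hg⟩ := hN V Gᶜ (H.comap f)ᶜ (TD_of_walks hp) hD.compl hcard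
      refine ⟨g, fun x y => ?_⟩
      by_cases hxy : x = y
      · subst hxy; simp
      · have h1 := hg x y
        rw [SimpleGraph.compl_adj, SimpleGraph.compl_adj] at h1
        have h2 : g x ≠ g y := fun h => hxy (g.injective h)
        constructor
        · intro h
          by_contra hcon
          exact (h1.mpr ⟨h2, hcon⟩).2 h
        · intro h
          by_contra hcon
          exact (h1.mp ⟨hxy, hcon⟩).2 h
  obtain ⟨g, hg⟩ := hiso
  exact ⟨g.trans f, fun x y => hg x y⟩

end Pool.Agent.LPF
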