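import Mathlib
import Pool.Agent.LPF.Final
import Pool.Agent.Sep.Assembly
import Pool.Agent.Sep.CardII

/-!
Reconstruction of the truncated clique lattices of large graphs without long paths
(MP_552896_co).
-/

set_option autoImplicit false

namespace Pool.Agent.LPF

open Finset Classical Pool.Agent.Sep

theorem main' (t : ℕ) :
    ∃ N : ℕ, ∀ (V : Type) [Fintype V] (G : SimpleGraph V), N ≤ Fintype.card V →
      ((∀ (u v : V) (p : G.Walk u v), p.IsPath → p.length < t) ∨
        (∀ (u v : V) (p : Gᶜ.Walk u v), p.IsPath → p.length < t)) →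
      ∀ (W : Type) [Fintype W] (H : SimpleGraph W) (f : V ≃ W),
        (∀ v : V,
          Nonempty ({s : Finset V // s.Nonempty ∧ G.IsClique (s : Set V) ∧ v ∉ s} ≃o
            {t : Finset W // t.Nonempty ∧ H.IsClique (t : Set W) ∧ f v ∉ t})) →
        Nonempty ({s : Finset V // s.Nonempty ∧ G.IsClique (s : Set V)} ≃o
          {t : Finset W // t.Nonempty ∧ H.IsClique (t : Set W)}) :=
  main (fun V _ A G H hyp hb q hc hq hcard => recon_perm A G H q hb hc hq hcard hyp)
    (fun V _ A G => (sep_card_II A G).2) t

end Pool.Agent.LPF
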